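import Pool.Agent.MP_8ae77a_co.Main
import Pool.Agent.MP_8ae77a_co.Exist

set_option autoImplicit false

open Pool.Agent.MP_8ae77a_co

/-- Negative answer to Q1: for every `t ≥ 2` and every `f = o(n)` there are `n` and
`1 ≤ k < n - f(n)` with `s^{(t)}_{n,k} > C(n, k-1)`. -/
theorem Pool.Agent.Results.MP_8ae77a_co.NoSublinearThreshold.result :
    ∀ t : ℕ, 2 ≤ t → ∀ f : ℕ → ℕ,
      (fun n : ℕ => (f n : ℝ)) =o[Filter.atTop] (fun n : ℕ => (n : ℝ)) →
      ∃ n k : ℕ, 1 ≤ k ∧ k + f n < n ∧ n.choose (k - 1) < sMin t n k := by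
  intro t ht f hf
  have hc : (0 : ℝ) < 1 / 3 ^ t := by positivity
  have h1 := hf.bound hc
  rw [Filter.eventually_atTop] at h1
  obtain ⟨N0, hN0⟩ := h1
  -- choose `m` large
  set m : ℕ := max 3 N0 with hm
  have hm3 : 3 ≤ m := le_max_left _ _
  have hpow : 1 ≤ 3 ^ t := Nat.one_le_pow _ _ (by norm_num)
  have hpow3 : 3 ≤ 3 ^ t := by
    calc 3 = 3 ^ 1 := by norm_num
      _ ≤ 3 ^ t := Nat.pow_le_pow_right (by norm_num) (by omega)
  set n : ℕ := 3 ^ t * m with hn
  have hnm : m ≤ n := by rw [hn]; exact Nat.le_mul_of_pos_left _ (by omega)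
  have hn3m : 3 * m ≤ n := by rw [hn]; exact Nat.mul_le_mul_right _ hpow3
  have hnN : N0 ≤ n := le_trans (le_max_right _ _) hnm
  have hfn : f n ≤ m := by
    have h2 := hN0 n hnN
    rw [Real.norm_of_nonneg (by positivity), Real.norm_of_nonneg (by positivity)] at h2
    have h3 : (1 / 3 ^ t : ℝ) * (n : ℝ) = m := by
      rw [hn]
      push_cast
      field_simp
    rw [h3] at h2
    exact_mod_cast h2
  refine ⟨n, n - 2 * m + 2, by omega, by omega, ?_⟩
  -- the minimum is attained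
  have hne : {q | ∃ T : Fin t → SemiTree n, q = (common T (n - 2 * m + 2)).ncard}.Nonempty := by
    obtain ⟨T0⟩ := exists_semiTree (n := n) (by omega)
    exact ⟨_, fun _ => T0, rfl⟩
  obtain ⟨T, hT⟩ := Nat.sInf_mem hne
  have h4 : sMin t n (n - 2 * m + 2) = (common T (n - 2 * m + 2)).ncard := hT
  rw [h4]
  exact many (by omega) (by omega) le_rfl T
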